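import Mathlib
import Pool.Agent.H374R2.CofE

/-!
Generalised Fermat equations with coefficients `± 1` (the case `S = ∅`), seen from the base of the
largest term.

For one hundred per cent of the positive integers `n` (natural density) there is no solution of
`a x ^ p + b y ^ q = c z ^ r` in nonzero integers, `a, b, c = ± 1`, `gcd (x, y, z) = 1`, in which one
of the three terms is the largest in absolute value and has base `± n`, while the exponents of the two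
other terms have a common factor. The two other bases and the three positive exponents are arbitrary;
no condition such as `1/p + 1/q + 1/r < 1` is imposed, and the exponent of `n` may be one.
-/

set_option autoImplicit false

namespace Pool.Agent.Results.MP_be1fae_nt.LargestTermBase

/-- `S`-solutions of `a x ^ p + b y ^ q = c z ^ r` (the condition `1/p + 1/q + 1/r < 1` is not
imposed) -/
def SSolution (S : Finset ℕ) (a b c x y z : ℤ) (p q r : ℕ) : Prop :=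
  0 < p ∧ 0 < q ∧ 0 < r ∧ a ≠ 0 ∧ b ≠ 0 ∧ c ≠ 0 ∧ x ≠ 0 ∧ y ≠ 0 ∧ z ≠ 0 ∧
    (∀ ℓ : ℕ, ℓ.Prime → (ℓ : ℤ) ∣ a * b * c → ℓ ∈ S) ∧
    Int.gcd ((Int.gcd (a * x) (b * y) : ℕ) : ℤ) (c * z) = 1 ∧
    a * x ^ p + b * y ^ q = c * z ^ r

/-- the positive integers `n` such that `± n` is the base of a term of an `S`-solution which is at
least as large, in absolute value, as the two other terms, and the exponents of the two other terms
have a common factor -/
def Exceptional (S : Finset ℕ) : Set ℕ :=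
  {n | ∃ (a b c x y z : ℤ) (p q r : ℕ), SSolution S a b c x y z p q r ∧
    ((z.natAbs = n ∧ |a * x ^ p| ≤ |c * z ^ r| ∧ |b * y ^ q| ≤ |c * z ^ r| ∧ 1 < Nat.gcd p q) ∨
     (x.natAbs = n ∧ |b * y ^ q| ≤ |a * x ^ p| ∧ |c * z ^ r| ≤ |a * x ^ p| ∧ 1 < Nat.gcd q r) ∨
     (y.natAbs = n ∧ |a * x ^ p| ≤ |b * y ^ q| ∧ |c * z ^ r| ≤ |b * y ^ q| ∧ 1 < Nat.gcd p r))}

theorem isUnit_of_empty {a b c : ℤ}
    (h : ∀ ℓ : ℕ, ℓ.Prime → (ℓ : ℤ) ∣ a * b * c → ℓ ∈ (∅ : Finset ℕ)) :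
    a.natAbs = 1 ∧ b.natAbs = 1 ∧ c.natAbs = 1 := by
  have h1 : (a * b * c).natAbs = 1 := by
    by_contra hne
    obtain ⟨l, hl, hd⟩ := Nat.exists_prime_and_dvd hne
    have := h l hl (Int.natCast_dvd.2 hd)
    simp at this
  rw [Int.natAbs_mul, Int.natAbs_mul] at h1
  have h2 := Nat.eq_one_of_mul_eq_one_left h1
  have h3 := Nat.eq_one_of_mul_eq_one_right h1
  exact ⟨Nat.eq_one_of_mul_eq_one_right h3, Nat.eq_one_of_mul_eq_one_left h3, h2⟩

/-- three integers with sum zero, the first the largest in absolute value -/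
theorem natAbs_add_of_le {u v w : ℤ} (h : u + v + w = 0)
    (h1 : |v| ≤ |u|) (h2 : |w| ≤ |u|) : v.natAbs + w.natAbs = u.natAbs := by
  rcases abs_cases u with ⟨e1, _⟩ | ⟨e1, _⟩ <;> rcases abs_cases v with ⟨e2, _⟩ | ⟨e2, _⟩ <;>
    rcases abs_cases w with ⟨e3, _⟩ | ⟨e3, _⟩ <;> omega

/-- the coprimality of the two other bases -/
theorem coprime_of {x y z : ℕ} {p q r : ℕ}
    (hg : ∀ l : ℕ, l.Prime → l ∣ x → l ∣ y → l ∣ z → False) (hp : 0 < p) (hq : 0 < q)
    (he : x ^ p + y ^ q = z ^ r) : Nat.Coprime x y := by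
  refine Nat.coprime_of_dvd fun l hl h1 h2 => hg l hl h1 h2 ?_
  have h3 : l ∣ z ^ r := he ▸ (Nat.dvd_add (h1.trans (dvd_pow_self x hp.ne'))
    (h2.trans (dvd_pow_self y hq.ne')))
  exact hl.dvd_of_dvd_pow h3

theorem subset : Exceptional ∅ ⊆ Pool.Agent.H374R2.Cof.Exceptional := by
  rintro n ⟨a, b, c, x, y, z, p, q, r, ⟨hp, hq, hr, ha, hb, hc, hx, hy, hz, hS, hg, he⟩, hcase⟩
  obtain ⟨ua, ub, uc⟩ := isUnit_of_empty hS
  have hterm : ∀ {u w : ℤ} {k : ℕ}, u.natAbs = 1 → (u * w ^ k).natAbs = w.natAbs ^ k := by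
    intro u w k hu
    rw [Int.natAbs_mul, hu, one_mul, Int.natAbs_pow]
  have hprime : ∀ l : ℕ, l.Prime → l ∣ x.natAbs → l ∣ y.natAbs → l ∣ z.natAbs → False := by
    intro l hl h1 h2 h3
    have e1 : (l : ℤ) ∣ a * x := (Int.natCast_dvd.2 h1).mul_left a
    have e2 : (l : ℤ) ∣ b * y := (Int.natCast_dvd.2 h2).mul_left b
    have e3 : (l : ℤ) ∣ c * z := (Int.natCast_dvd.2 h3).mul_left c
    have e4 : (l : ℤ) ∣ ((Int.gcd (a * x) (b * y) : ℕ) : ℤ) := Int.dvd_coe_gcd e1 e2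
    have e5 : (l : ℤ) ∣ ((Int.gcd ((Int.gcd (a * x) (b * y) : ℕ) : ℤ) (c * z) : ℕ) : ℤ) :=
      Int.dvd_coe_gcd e4 e3
    rw [hg] at e5
    exact hl.one_lt.ne' (Nat.dvd_one.1 (by exact_mod_cast e5))
  have hxp : 0 < x.natAbs := Int.natAbs_pos.2 hx
  have hyp : 0 < y.natAbs := Int.natAbs_pos.2 hy
  have hzp : 0 < z.natAbs := Int.natAbs_pos.2 hz
  rcases hcase with ⟨hn, h1, h2, hgcd⟩ | ⟨hn, h1, h2, hgcd⟩ | ⟨hn, h1, h2, hgcd⟩
  · have h3 := natAbs_add_of_le (u := -(c * z ^ r)) (v := a * x ^ p) (w := b * y ^ q)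
      (by linarith) (by rwa [abs_neg]) (by rwa [abs_neg])
    rw [Int.natAbs_neg, hterm ua, hterm ub, hterm uc] at h3
    refine ⟨x.natAbs, y.natAbs, p, q, r, hxp, hyp, hp, hq, hr, ?_, hgcd, hn ▸ h3⟩
    exact coprime_of hprime hp hq h3
  · have h3 := natAbs_add_of_le (u := a * x ^ p) (v := b * y ^ q) (w := -(c * z ^ r))
      (by linarith) h1 (by rwa [abs_neg])
    rw [Int.natAbs_neg, hterm ua, hterm ub, hterm uc] at h3
    refine ⟨y.natAbs, z.natAbs, q, r, p, hyp, hzp, hq, hr, hp, ?_, hgcd, hn ▸ h3⟩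
    exact coprime_of (fun l hl g1 g2 g3 => hprime l hl g3 g1 g2) hq hr h3
  · have h3 := natAbs_add_of_le (u := b * y ^ q) (v := a * x ^ p) (w := -(c * z ^ r))
      (by linarith) h1 (by rwa [abs_neg])
    rw [Int.natAbs_neg, hterm ua, hterm ub, hterm uc] at h3
    refine ⟨x.natAbs, z.natAbs, p, r, q, hxp, hzp, hp, hr, hq, ?_, hgcd, hn ▸ h3⟩
    exact coprime_of (fun l hl g1 g2 g3 => hprime l hl g1 g3 g2) hp hr h3

/-- For every `ε > 0` and all large `N` at most `ε N` of the positive integers `n ≤ N` are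
exceptional for `S = ∅`. -/
theorem result : ∀ ε : ℝ, 0 < ε → ∃ N₀ : ℕ, ∀ N : ℕ, N₀ ≤ N →
    ((Exceptional ∅ ∩ Set.Ioc 0 N).ncard : ℝ) ≤ ε * N :=
  Pool.Agent.H374R2.Cof.natNull_exceptional.mono subset

end Pool.Agent.Results.MP_be1fae_nt.LargestTermBase
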