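import Pool.Agent.R909.RandSets
import Pool.Agent.R479.DA.Lim
import Pool.Agent.Results.MP_be1fae_nt.SolutionsByBases

/-!
# Generalised Fermat equations with bases in random sets

For a triple of terms `t = (a x ^ p, b y ^ q, c z ^ r)` of an `S`-solution with large exponents let
`h t` be the least possible value of `max (|x|, |y|, |z|)`. For every finite set `S` of primes and every
`γ > 0` there is `R` such that for every random set `A` of positive integers which contains `n` with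
probability `O(n ^ (-γ))` there are almost surely only finitely many triples of terms `t` of
`S`-solutions with exponents `≥ R` and `h t ∈ A`.
-/

set_option autoImplicit false

namespace Pool.Agent.Results.MP_be1fae_nt.RandomSets

open Filter Topology MeasureTheory
open Pool.Agent.Results.MP_be1fae_nt.SolutionsByBases (Solution Coefficient Bases TwoLarge OneLarge
  ByBases General)

/-- `n` belongs to the random set `A` with probability at most `C * n ^ (-γ)` -/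
def Sparse {Ω : Type} [MeasurableSpace Ω] (P : Measure Ω) (A : Ω → Set ℕ) (γ C : ℝ) : Prop :=
  ∀ n : ℕ, 0 < n → P {ω | n ∈ A ω} ≤ ENNReal.ofReal (C * (n : ℝ) ^ (-γ))

/-- the triples of terms of the `S`-solutions with large exponents: two of them `≥ R`, or all `≥ 2`
and one `≥ R` -/
def Terms (S : Finset ℕ) (R : ℕ) : Set (ℤ × ℤ × ℤ) := {t | ∃ Y : ℕ, t ∈ ByBases S R Y}

/-- the least `Y` such that `t` comes from an `S`-solution with large exponents and bases at most `Y`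
in absolute value -/
noncomputable def least (S : Finset ℕ) (R : ℕ) (t : ℤ × ℤ × ℤ) : ℕ :=
  sInf {Y : ℕ | t ∈ ByBases S R Y}

/-- the triples of terms of the solutions with large exponents: two of them `≥ R`, or all `≥ 2` and one
`≥ R`, whose coefficients are, up to sign, products of powers of `n` positive integers `≤ Y ^ η`,
where `Y` bounds the bases -/
def GTerms (n R : ℕ) (η : ℝ) : Set (ℤ × ℤ × ℤ) := {t | ∃ Y : ℕ, t ∈ General n R η Y}

/-- the least such `Y` -/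
noncomputable def gleast (n R : ℕ) (η : ℝ) (t : ℤ × ℤ × ℤ) : ℕ :=
  sInf {Y : ℕ | t ∈ General n R η Y}

section abstract_

variable {T : Type} {D : ℕ → Set T}

/-- the least index -/
noncomputable def lst (D : ℕ → Set T) (t : T) : ℕ := sInf {Y : ℕ | t ∈ D Y}

lemma lst_mem {t : T} (h : ∃ Y, t ∈ D Y) : t ∈ D (lst D t) :=
  Nat.sInf_mem (s := {Y : ℕ | t ∈ D Y}) h

/-- the sum over the objects with a count `O(Y ^ ε)` -/
lemma summable_lst (h0 : ∀ t, t ∉ D 0) (hmono : ∀ Y Y' : ℕ, Y ≤ Y' → D Y ⊆ D Y') {ε C p : ℝ}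
    (hε : 0 ≤ ε) (hp : ε < p)
    (hc : ∀ Y : ℕ, 1 ≤ Y → (D Y).Finite ∧ ((D Y).ncard : ℝ) ≤ C * (Y : ℝ) ^ ε) :
    Summable fun t : {t : T // ∃ Y, t ∈ D Y} => ((lst D t.1 : ℕ) : ℝ) ^ (-p) := by
  have h1 : ∀ t : {t : T // ∃ Y, t ∈ D Y}, (1 : ℝ) ≤ ((lst D t.1 : ℕ) : ℝ) := by
    intro t
    have h2 := lst_mem t.2
    have h3 : lst D t.1 ≠ 0 := by
      intro h4
      rw [h4] at h2
      exact h0 _ h2
    exact_mod_cast Nat.one_le_iff_ne_zero.2 h3
  refine Pool.Agent.R479.DA.summable_heights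
    (fun t : {t : T // ∃ Y, t ∈ D Y} => ((lst D t.1 : ℕ) : ℝ)) h1 (s := ε) (p := p) (C := |C|)
    hp (by linarith) (fun X hX => ?_)
  have hfl : 1 ≤ ⌊X⌋₊ := Nat.one_le_floor_iff X |>.2 hX
  obtain ⟨h2, h3⟩ := hc ⌊X⌋₊ hfl
  have hmaps : Set.MapsTo Subtype.val
      {t : {t : T // ∃ Y, t ∈ D Y} | ((lst D t.1 : ℕ) : ℝ) ≤ X} (D ⌊X⌋₊) := by
    intro t ht
    have h4 : lst D t.1 ≤ ⌊X⌋₊ := Nat.le_floor ht
    exact hmono _ _ h4 (lst_mem t.2)
  have hinj : Set.InjOn Subtype.val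
      {t : {t : T // ∃ Y, t ∈ D Y} | ((lst D t.1 : ℕ) : ℝ) ≤ X} := Subtype.val_injective.injOn
  refine ⟨h2.of_injOn hmaps hinj, ?_⟩
  have h4 := Set.ncard_le_ncard_of_injOn _ hmaps hinj h2
  have h5 : ((⌊X⌋₊ : ℕ) : ℝ) ^ ε ≤ X ^ ε :=
    Real.rpow_le_rpow (Nat.cast_nonneg _) (Nat.floor_le (by linarith)) hε
  calc _ ≤ ((D ⌊X⌋₊).ncard : ℝ) := by exact_mod_cast h4
    _ ≤ C * ((⌊X⌋₊ : ℕ) : ℝ) ^ ε := h3
    _ ≤ |C| * ((⌊X⌋₊ : ℕ) : ℝ) ^ ε :=
        mul_le_mul_of_nonneg_right (le_abs_self C) (Real.rpow_nonneg (Nat.cast_nonneg _) _)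
    _ ≤ |C| * X ^ ε := mul_le_mul_of_nonneg_left h5 (abs_nonneg C)

theorem finite_lst {Ω : Type} [MeasurableSpace Ω] {P : Measure Ω} {A : Ω → Set ℕ} {γ C₀ : ℝ}
    (hA : Sparse P A γ C₀) (hγ : 0 < γ) (h0 : ∀ t, t ∉ D 0)
    (hmono : ∀ Y Y' : ℕ, Y ≤ Y' → D Y ⊆ D Y') {C : ℝ}
    (hc : ∀ Y : ℕ, 1 ≤ Y → (D Y).Finite ∧ ((D Y).ncard : ℝ) ≤ C * (Y : ℝ) ^ (γ / 4)) :
    (∀ᵐ ω ∂P, {t : T | (∃ Y, t ∈ D Y) ∧ lst D t ∈ A ω}.Finite) ∧ ∃ B : ℝ, ∀ y : ℝ, 1 ≤ y →
      P {ω | ∃ t : T, (∃ Y, t ∈ D Y) ∧ y ≤ ((lst D t : ℕ) : ℝ) ∧ lst D t ∈ A ω} ≤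
        ENNReal.ofReal (B * y ^ (-(γ / 2))) := by
  refine Pool.Agent.R909.RS.single (nm := fun n : ℕ => (n : ℝ)) (A := A) (γ := γ) (C := C₀)
    (fun n hn => hA n (Nat.cast_pos.1 hn)) (Q := fun t => ∃ Y, t ∈ D Y)
    (H := fun t => ((lst D t : ℕ) : ℝ)) (fun t ht => ?_) (u := fun t => lst D t) (K := 1) one_pos
    (fun t _ => by rw [one_mul]) hγ.le (p := γ / 2) (η := γ / 2) (by linarith) (by linarith)
    (summable_lst h0 hmono (ε := γ / 4) (by linarith) (by linarith) hc)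
  have h2 := lst_mem ht
  have h3 : lst D t ≠ 0 := by
    intro h4
    rw [h4] at h2
    exact h0 _ h2
  exact_mod_cast Nat.one_le_iff_ne_zero.2 h3

end abstract_

lemma Bases.mono {Y Y' : ℝ} (h : Y ≤ Y') {x y z : ℤ} (hb : Bases Y x y z) : Bases Y' x y z :=
  ⟨hb.1.trans h, hb.2.1.trans h, hb.2.2.trans h⟩

lemma Coefficient.mono {n : ℕ} {W W' : ℝ} (h : W ≤ W') {a : ℤ} (ha : Coefficient n W a) :
    Coefficient n W' a := by
  obtain ⟨y, e, h1, h2⟩ := ha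
  exact ⟨y, e, fun i => ⟨(h1 i).1, (h1 i).2.trans h⟩, h2⟩

lemma not_bases_zero {a b c x y z : ℤ} {p q r : ℕ} (h : Solution a b c x y z p q r) :
    ¬ Bases ((0 : ℕ) : ℝ) x y z := by
  intro hb
  have h1 := hb.1
  rw [Nat.cast_zero] at h1
  have h2 : (x : ℝ) = 0 := abs_nonpos_iff.1 h1
  exact h.2.2.2.2.1 (by exact_mod_cast h2)

/-- **Theorem.** (1) For every finite set `S` of primes and every `γ > 0` there is `R` such that for
every random set `A` of positive integers which contains each `n` with probability at most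
`C n ^ (-γ)`, almost surely only finitely many triples of terms `t` of `S`-solutions with large
exponents (two of them `≥ R`, or all `≥ 2` and one `≥ R`) have `least S R t ∈ A`; and the probability
that there is such a `t` with `least S R t ≥ y` is at most `B y ^ (-γ / 2)`.

(2) For every `n` and `γ > 0` there are `R` and `η > 0` such that the same holds for all solutions
whose coefficients are, up to sign, products of powers of `n` positive integers `≤ Y ^ η`, `Y` a bound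
for the bases. -/
theorem result :
    (∀ (S : Finset ℕ) (γ : ℝ), 0 < γ → ∃ R : ℕ,
      ∀ (Ω : Type) [MeasurableSpace Ω] (P : Measure Ω) (A : Ω → Set ℕ) (C : ℝ), Sparse P A γ C →
        (∀ᵐ ω ∂P, {t : ℤ × ℤ × ℤ | t ∈ Terms S R ∧ least S R t ∈ A ω}.Finite) ∧
        ∃ B : ℝ, ∀ y : ℝ, 1 ≤ y →
          P {ω | ∃ t : ℤ × ℤ × ℤ, t ∈ Terms S R ∧ y ≤ ((least S R t : ℕ) : ℝ) ∧
            least S R t ∈ A ω} ≤ ENNReal.ofReal (B * y ^ (-(γ / 2)))) ∧
    (∀ (n : ℕ) (γ : ℝ), 0 < γ → ∃ (R : ℕ) (η : ℝ), 0 < η ∧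
      ∀ (Ω : Type) [MeasurableSpace Ω] (P : Measure Ω) (A : Ω → Set ℕ) (C : ℝ), Sparse P A γ C →
        (∀ᵐ ω ∂P, {t : ℤ × ℤ × ℤ | t ∈ GTerms n R η ∧ gleast n R η t ∈ A ω}.Finite) ∧
        ∃ B : ℝ, ∀ y : ℝ, 1 ≤ y →
          P {ω | ∃ t : ℤ × ℤ × ℤ, t ∈ GTerms n R η ∧ y ≤ ((gleast n R η t : ℕ) : ℝ) ∧
            gleast n R η t ∈ A ω} ≤ ENNReal.ofReal (B * y ^ (-(γ / 2)))) := by
  constructor
  · intro S γ hγ
    obtain ⟨R, C, hC, h⟩ := SolutionsByBases.result.2.2 S (γ / 4) (by linarith)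
    refine ⟨R, fun Ω _ P A C₀ hA => ?_⟩
    refine finite_lst (D := fun Y : ℕ => ByBases S R Y) hA hγ ?_ ?_ (C := C) ?_
    · rintro t ⟨a, b, c, x, y, z, p, q, r, h1, -, -, -, h5⟩
      exact not_bases_zero h1 h5
    · rintro Y Y' hY t ⟨a, b, c, x, y, z, p, q, r, h1, h2, h3, h4, h5⟩
      exact ⟨a, b, c, x, y, z, p, q, r, h1, h2, h3, h4, Bases.mono (by exact_mod_cast hY) h5⟩
    · intro Y hY
      exact h Y (by exact_mod_cast hY)
  · intro n γ hγ
    obtain ⟨R, C, η, hC, hη, h⟩ := SolutionsByBases.result.2.1 n (γ / 4) (by linarith)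
    refine ⟨R, η, hη, fun Ω _ P A C₀ hA => ?_⟩
    refine finite_lst (D := fun Y : ℕ => General n R η Y) hA hγ ?_ ?_ (C := C) ?_
    · rintro t ⟨a, b, c, x, y, z, p, q, r, h1, -, -, -, -, h5, -⟩
      exact not_bases_zero h1 h5
    · rintro Y Y' hY t ⟨a, b, c, x, y, z, p, q, r, h1, h2, h3, h4, h5, h6, h7⟩
      have hYY : ((Y : ℕ) : ℝ) ^ η ≤ ((Y' : ℕ) : ℝ) ^ η :=
        Real.rpow_le_rpow (Nat.cast_nonneg _) (by exact_mod_cast hY) hη.le
      exact ⟨a, b, c, x, y, z, p, q, r, h1, h2, Coefficient.mono hYY h3, Coefficient.mono hYY h4,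
        Coefficient.mono hYY h5, Bases.mono (by exact_mod_cast hY) h6, h7⟩
    · intro Y hY
      exact h Y (by exact_mod_cast hY)

end Pool.Agent.Results.MP_be1fae_nt.RandomSets
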