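import Pool.Agent.Results.MP_be1fae_nt.WindowsWithoutSolutions
import Pool.Agent.R482.ST.Star

/-!
# No solutions of the generalised Fermat equation near powers, orbits and other sequences

A solution `a x ^ p + b y ^ q = c z ^ r` with coefficients composed of primes of `S` is called reduced if no prime of `S`
divides `x y z` and `|x|`, `|y|`, `|z|` are `1` or no perfect powers; every solution becomes reduced if the primes of `S`
in the bases are moved to the coefficients and perfect powers to the exponents (which become larger).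

Let `f_n`, `n = 0, 1, 2, …`, be positive functions on `(a, ∞)`, `a ≥ 0`, such that `f_n(t) / t` is nondecreasing, and such
that the sequence `f_n(t)` has exponent of convergence at most `τ` for each `t > a`: for instance `f_n(t) = t ^ (v_n)` for
exponents `v_n ≥ 1` (`τ = 0`; all powers, the powers `t ^ (3 ^ n)` of Mills, …), the orbits `f_n(t) = g (g (⋯ g (t)))` of any
map `g` with `g(t) > t` and `g(t) / t` nondecreasing (`τ = 0`; for instance of `t² + c`), and `f_n(t) = v_n t`.
Let `θ < 1`. For all `α > a` outside a set of Hausdorff dimension at most `(1 / 3 + τ) / (1 - θ)` there is `R` such that for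
every `κ` and all but finitely many `k` there is no reduced solution with two exponents `≥ R` and
`||x y z| - f_k(α)| ≤ κ f_k(α) ^ θ`. If `2 ∉ S`, then for all `α > a` outside a set of dimension at most `τ / (1 - θ)` there is
`R` such that for every `κ` and all but finitely many `k` there is no reduced solution with two exponents `≥ R` and
`|max (|x|, |y|, |z|) - f_k(α)| ≤ κ f_k(α) ^ θ`.
-/

set_option autoImplicit false

open Finset Filter Topology
open scoped ENNReal

namespace Pool.Agent.Results.MP_be1fae_nt.StarshapedWindows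

open AllSolutionsByBases (Solution TwoLarge ByBases ByProduct Bases)
open WindowsWithoutSolutions (Reduced Val card_val inter_dim)

/-- the functions `f n` are positive on `(a, ∞)`, `a ≥ 0`, and `f n x / x` is nondecreasing there -/
def Starshaped (a : ℝ) (f : ℕ → ℝ → ℝ) : Prop :=
  0 ≤ a ∧ ∀ n : ℕ, ∀ x y : ℝ, a < x → x ≤ y → 0 < f n x ∧ f n x / x ≤ f n y / y

/-- for each `x > a` the exponent of convergence of the sequence `f n x` is at most `τ` -/
def ExpLe (a : ℝ) (f : ℕ → ℝ → ℝ) (τ : ℝ) : Prop :=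
  ∀ x : ℝ, a < x → ∀ t : ℝ, τ < t → Summable (fun n : ℕ => (f n x) ^ (-t))

/-- **Theorem.** Let `S` be a finite set, `f` starshaped functions on `(a, ∞)` of exponent of convergence at most `τ ≥ 0` and
`θ < 1`. There is a set `E` of Hausdorff dimension at most `(1 / 3 + τ) / (1 - θ)` such that for each `α > a` outside `E`
there is `R` such that for each `κ` and all but finitely many `k` there is no reduced `S`-solution `a x ^ p + b y ^ q = c z ^ r`
with at least two exponents `≥ R` and `||x y z| - f_k(α)| ≤ κ f_k(α) ^ θ`. If `2 ∉ S`, there is a set `E` of dimension at most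
`τ / (1 - θ)` such that for each `α > a` outside `E` there is `R` such that for each `κ` and all but finitely many `k` there is
no reduced `S`-solution with at least two exponents `≥ R` and `|max (|x|, |y|, |z|) - f_k(α)| ≤ κ f_k(α) ^ θ`.
The functions `v_n x`, `v_n > 0`, are starshaped on `(0, ∞)`, of exponent `τ` if `v` has exponent of convergence at most
`τ`; the functions `x ^ (v_n)`, `v_n ≥ 1`, are starshaped on `(1, ∞)`, of exponent `0` if the sums of `exp (-t v_n)` converge
for `t > 0`; and the iterates of a map `g` with `g(x) > x` for `x > a` and `g(x) / x` nondecreasing are starshaped on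
`(a, ∞)`, of exponent `0`. -/
theorem result :
    (∀ (S : Finset ℕ) (a₀ : ℝ) (f : ℕ → ℝ → ℝ) (τ θ : ℝ), Starshaped a₀ f → 0 ≤ τ → ExpLe a₀ f τ → θ < 1 →
      (∃ E : Set ℝ, dimH E ≤ ENNReal.ofReal ((1 / 3 + τ) / (1 - θ)) ∧
        ∀ α : ℝ, a₀ < α → α ∉ E → ∃ R : ℕ, ∀ κ : ℝ, ∃ k₀ : ℕ, ∀ k : ℕ, k₀ ≤ k → ∀ (a b c x y z : ℤ) (p q r : ℕ),
          Reduced S R a b c x y z p q r → κ * (f k α) ^ θ < |(((x * y * z).natAbs : ℕ) : ℝ) - f k α|) ∧
      (2 ∉ S → ∃ E : Set ℝ, dimH E ≤ ENNReal.ofReal (τ / (1 - θ)) ∧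
        ∀ α : ℝ, a₀ < α → α ∉ E → ∃ R : ℕ, ∀ κ : ℝ, ∃ k₀ : ℕ, ∀ k : ℕ, k₀ ≤ k → ∀ (a b c x y z : ℤ) (p q r : ℕ),
          Reduced S R a b c x y z p q r →
            κ * (f k α) ^ θ < |((max (max x.natAbs y.natAbs) z.natAbs : ℕ) : ℝ) - f k α|)) ∧
    (∀ (v : ℕ → ℝ) (τ : ℝ), (∀ n, 0 < v n) → (∀ t : ℝ, τ < t → Summable (fun n : ℕ => (v n) ^ (-t))) →
      Starshaped 0 (fun n x => v n * x) ∧ ExpLe 0 (fun n x => v n * x) τ) ∧
    (∀ v : ℕ → ℝ, (∀ n, 1 ≤ v n) → (∀ t : ℝ, 0 < t → Summable fun n : ℕ => Real.exp (-(t * v n))) →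
      Starshaped 1 (fun n x => x ^ (v n)) ∧ ExpLe 1 (fun n x => x ^ (v n)) 0) ∧
    (∀ (a : ℝ) (g : ℝ → ℝ), 0 ≤ a → (∀ x y : ℝ, a < x → x ≤ y → g x / x ≤ g y / y) → (∀ x : ℝ, a < x → x < g x) →
      Starshaped a (fun n x => g^[n] x) ∧ ExpLe a (fun n x => g^[n] x) 0) := by
  classical
  refine ⟨fun S a₀ f τ θ hf hτ hE hθ1 => ⟨?_, fun h2 => ?_⟩, Pool.Agent.R482.ST.ex_mul, Pool.Agent.R482.ST.ex_pow,
    Pool.Agent.R482.ST.ex_orbit⟩
  · have hall : ∀ j : ℕ, ∃ (R : ℕ) (E : Set ℝ),
        dimH E ≤ ENNReal.ofReal ((1 / 3 + 1 / ((j : ℝ) + 1) + τ) / (1 - θ)) ∧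
        ∀ α : ℝ, a₀ < α → α ∉ E → ∀ κ : ℝ, ∃ k₀ : ℕ, ∀ k : ℕ, k₀ ≤ k → ∀ m : ℕ, |(m : ℝ) - f k α| ≤ κ * (f k α) ^ θ →
          0 < m ∧ m ∉ Val S R (fun x y z => x * y * z) := by
      intro j
      obtain ⟨R, C, hC, h⟩ := AllSolutionsByBases.result.2.2 S (1 / ((j : ℝ) + 1)) (by positivity)
      obtain ⟨E, h3, h4⟩ := Pool.Agent.R482.ST.win_nat (Val S R (fun x y z => x * y * z)) hf hτ hE
        (s := 1 / 3 + 1 / ((j : ℝ) + 1)) (by positivity) hθ1 (fun ε hε => by
          refine ⟨C, fun X hX => ?_⟩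
          have hX1 : (1 : ℝ) ≤ X := by exact_mod_cast hX
          obtain ⟨h5, h6⟩ := h X hX1
          have h7 := card_val S R (fun x y z => x * y * z) X (ByProduct S R X) h5 (by
            intro a b c x y z p q r hred hle
            refine ⟨a, b, c, x, y, z, p, q, r, hred.1, rfl, hred.2.1, hred.2.2.2.2.2.2, ?_⟩
            have h8 : ((x.natAbs * y.natAbs * z.natAbs : ℕ) : ℝ) ≤ X := by exact_mod_cast hle
            rw [← Int.natAbs_mul, ← Int.natAbs_mul, Nat.cast_natAbs, Int.cast_abs] at h8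
            exact h8)
          have h9 : (((Ioc 0 X).filter (fun t => t ∈ Val S R (fun x y z => x * y * z))).card : ℝ) ≤
              ((ByProduct S R X).ncard : ℝ) := by exact_mod_cast h7
          refine h9.trans (h6.trans ?_)
          apply mul_le_mul_of_nonneg_left _ hC.le
          apply Real.rpow_le_rpow_of_exponent_le hX1
          linarith)
      exact ⟨R, E, h3, h4⟩
    choose R G hG1 hG2 using hall
    refine ⟨⋂ m, G m, inter_dim G hG1, fun α hα hαE => ?_⟩
    rw [Set.mem_iInter] at hαE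
    push Not at hαE
    obtain ⟨j, hj⟩ := hαE
    refine ⟨R j, fun κ => ?_⟩
    obtain ⟨k₀, hk⟩ := hG2 j α hα hj κ
    refine ⟨k₀, fun k hk1 a b c x y z p q r hred => ?_⟩
    by_contra hcon
    push Not at hcon
    refine (hk k hk1 _ hcon).2 ⟨a, b, c, x, y, z, p, q, r, hred, ?_⟩
    rw [Int.natAbs_mul, Int.natAbs_mul]
  · have hall : ∀ j : ℕ, ∃ (R : ℕ) (E : Set ℝ),
        dimH E ≤ ENNReal.ofReal ((0 + 1 / ((j : ℝ) + 1) + τ) / (1 - θ)) ∧
        ∀ α : ℝ, a₀ < α → α ∉ E → ∀ κ : ℝ, ∃ k₀ : ℕ, ∀ k : ℕ, k₀ ≤ k → ∀ m : ℕ, |(m : ℝ) - f k α| ≤ κ * (f k α) ^ θ →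
          0 < m ∧ m ∉ Val S R (fun x y z => max (max x y) z) := by
      intro j
      obtain ⟨R, C, hC, h⟩ := AllSolutionsByBases.result.2.1 S (1 / ((j : ℝ) + 1)) h2 (by positivity)
      obtain ⟨E, h3, h4⟩ := Pool.Agent.R482.ST.win_nat (Val S R (fun x y z => max (max x y) z)) hf hτ hE
        (s := 0 + 1 / ((j : ℝ) + 1)) (by positivity) hθ1 (fun ε hε => by
          refine ⟨C, fun X hX => ?_⟩
          have hX1 : (1 : ℝ) ≤ X := by exact_mod_cast hX
          obtain ⟨h5, h6⟩ := h X hX1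
          have h7 := card_val S R (fun x y z => max (max x y) z) X (ByBases S R X) h5 (by
            intro a b c x y z p q r hred hle
            have hb : ∀ u : ℤ, u.natAbs ≤ X → |(u : ℝ)| ≤ X := by
              intro u hu
              have h8 : ((u.natAbs : ℕ) : ℝ) ≤ X := by exact_mod_cast hu
              rwa [Nat.cast_natAbs, Int.cast_abs] at h8
            have hle' : max (max x.natAbs y.natAbs) z.natAbs ≤ X := hle
            rw [max_le_iff, max_le_iff] at hle'
            exact ⟨a, b, c, x, y, z, p, q, r, hred.1, rfl, hred.2.1, hred.2.2.2.2.2.2,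
              hb x hle'.1.1, hb y hle'.1.2, hb z hle'.2⟩)
          have h9 : (((Ioc 0 X).filter (fun t => t ∈ Val S R (fun x y z => max (max x y) z))).card : ℝ) ≤
              ((ByBases S R X).ncard : ℝ) := by exact_mod_cast h7
          refine h9.trans (h6.trans ?_)
          apply mul_le_mul_of_nonneg_left _ hC.le
          apply Real.rpow_le_rpow_of_exponent_le hX1
          linarith)
      exact ⟨R, E, h3, h4⟩
    choose R G hG1 hG2 using hall
    have hdim := inter_dim (s := 0) G hG1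
    rw [zero_add] at hdim
    refine ⟨⋂ m, G m, hdim, fun α hα hαE => ?_⟩
    rw [Set.mem_iInter] at hαE
    push Not at hαE
    obtain ⟨j, hj⟩ := hαE
    refine ⟨R j, fun κ => ?_⟩
    obtain ⟨k₀, hk⟩ := hG2 j α hα hj κ
    refine ⟨k₀, fun k hk1 a b c x y z p q r hred => ?_⟩
    by_contra hcon
    push Not at hcon
    exact (hk k hk1 _ hcon).2 ⟨a, b, c, x, y, z, p, q, r, hred, rfl⟩

end Pool.Agent.Results.MP_be1fae_nt.StarshapedWindows
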