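import Pool.Agent.Results.MP_be1fae_nt.SolutionsByBases
import Pool.Agent.R559.NP.Near3

/-!
# Solutions of the generalised Fermat equation with `S`-unit coefficients near a given point

Let `φ` be any map from the triples of integers to a metric space (for example `(A, B, C) ↦ A / C` in `ℝ` or in `ℚ_l`).
For all points `ξ` outside a set of Hausdorff dimension zero, all `τ > 0` and every finite set `S` of primes there is `R`
such that only finitely many triples of terms `t = (a x ^ p, b y ^ q, c z ^ r)` come from `S`-solutions with large exponents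
(two of them `≥ R`, or all `≥ 2` and one `≥ R`) and `dist (φ t) ξ ≤ κ Y ^ (-τ)`, `Y = max (|x|, |y|, |z|)`.  The same holds
for coefficients which are products of powers of `n` integers `≤ Y ^ η`.
-/

set_option autoImplicit false

open Filter Topology

namespace Pool.Agent.Results.MP_be1fae_nt.TermsNearAPoint

open SolutionsByBases (Solution Coefficient Bases TwoLarge OneLarge General ByBases)

lemma coeff_mono {n : ℕ} {W W' : ℝ} {a : ℤ} (hW : W ≤ W') (h : Coefficient n W a) : Coefficient n W' a := by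
  obtain ⟨y, e, h1, h2⟩ := h
  exact ⟨y, e, fun i => ⟨(h1 i).1, (h1 i).2.trans hW⟩, h2⟩

lemma bases_mono {Y Y' : ℝ} {x y z : ℤ} (hY : Y ≤ Y') (h : Bases Y x y z) : Bases Y' x y z :=
  ⟨h.1.trans hY, h.2.1.trans hY, h.2.2.trans hY⟩

lemma general_mono {n R : ℕ} {η Y Y' : ℝ} (hη : 0 < η) (h0 : 0 ≤ Y) (hY : Y ≤ Y') :
    General n R η Y ⊆ General n R η Y' := by
  rintro t ⟨a, b, c, x, y, z, p, q, r, h1, h2, h3, h4, h5, h6, h7⟩
  have h8 : Y ^ η ≤ Y' ^ η := Real.rpow_le_rpow h0 hY hη.le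
  exact ⟨a, b, c, x, y, z, p, q, r, h1, h2, coeff_mono h8 h3, coeff_mono h8 h4, coeff_mono h8 h5,
    bases_mono hY h6, h7⟩

lemma byBases_mono {S : Finset ℕ} {R : ℕ} {Y Y' : ℝ} (hY : Y ≤ Y') : ByBases S R Y ⊆ ByBases S R Y' := by
  rintro t ⟨a, b, c, x, y, z, p, q, r, h1, h2, h3, h4, h5⟩
  exact ⟨a, b, c, x, y, z, p, q, r, h1, h2, h3, h4, bases_mono hY h5⟩

/-- **Theorem.** For every map `φ` from the triples of integers to a metric space `X` there is a set `E ⊆ X` of Hausdorff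
dimension zero such that for all `ξ` outside `E` and all `τ > 0`:
(1) for every finite set `S` of primes there is `R` such that for every `κ` there are only finitely many triples of terms
`t = (a x ^ p, b y ^ q, c z ^ r)` of `S`-solutions with large exponents (at least two of them `≥ R`, or all `≥ 2` and one
`≥ R`) and bases `|x|, |y|, |z| ≤ Y` for which `dist (φ t) ξ ≤ κ Y ^ (-τ)`;
(2) for every `n` there are `R` and `η > 0` such that the same holds for solutions whose coefficients are products of powers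
of `n` positive integers `≤ Y ^ η`. -/
theorem result (X : Type) [MetricSpace X] (φ : ℤ × ℤ × ℤ → X) : ∃ E : Set X, dimH E = 0 ∧ ∀ ξ : X, ξ ∉ E →
    ∀ τ : ℝ, 0 < τ →
      (∀ S : Finset ℕ, ∃ R : ℕ, ∀ κ : ℝ,
        {t : ℤ × ℤ × ℤ | ∃ Y : ℕ, 1 ≤ Y ∧ t ∈ ByBases S R (Y : ℝ) ∧
          dist (φ t) ξ ≤ κ * (Y : ℝ) ^ (-τ)}.Finite) ∧
      (∀ n : ℕ, ∃ (R : ℕ) (η : ℝ), 0 < η ∧ ∀ κ : ℝ,
        {t : ℤ × ℤ × ℤ | ∃ Y : ℕ, 1 ≤ Y ∧ t ∈ General n R η (Y : ℝ) ∧
          dist (φ t) ξ ≤ κ * (Y : ℝ) ^ (-τ)}.Finite) := by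
  classical
  have hpos : ∀ j : ℕ, 0 ≤ 1 / ((j : ℝ) + 1) := fun j => by positivity
  have hres1 := fun (j : ℕ) (S : Finset ℕ) =>
    SolutionsByBases.result.2.2 S (1 / ((j : ℝ) + 1)) (by positivity)
  choose R C hC hR using hres1
  have hres2 := fun (j : ℕ) (n : ℕ) =>
    SolutionsByBases.result.2.1 n (1 / ((j : ℝ) + 1)) (by positivity)
  choose R' C' η hC' hη hR' using hres2
  obtain ⟨E1, hE1, h1⟩ := Pool.Agent.R559.NP.near_zero_lvl (Y := Finset ℕ) (Z := ℤ × ℤ × ℤ) (X := X)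
    (F := fun j S T => ByBases S (R j S) (T : ℝ))
    (fun j S t t' htt => byBases_mono (by exact_mod_cast htt))
    (s := fun j => 1 / ((j : ℝ) + 1)) hpos tendsto_one_div_add_atTop_nhds_zero_nat
    (fun j S => ⟨C j S, fun T hT => hR j S T (by exact_mod_cast hT)⟩) (fun _ => φ)
  obtain ⟨E2, hE2, h2⟩ := Pool.Agent.R559.NP.near_zero_lvl (Y := ℕ) (Z := ℤ × ℤ × ℤ) (X := X)
    (F := fun j n T => General n (R' j n) (η j n) (T : ℝ))
    (fun j n t t' htt => general_mono (hη j n) (by positivity) (by exact_mod_cast htt))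
    (s := fun j => 1 / ((j : ℝ) + 1)) hpos tendsto_one_div_add_atTop_nhds_zero_nat
    (fun j n => ⟨C' j n, fun T hT => hR' j n T (by exact_mod_cast hT)⟩) (fun _ => φ)
  refine ⟨E1 ∪ E2, ?_, fun ξ hξ τ hτ => ?_⟩
  · rw [dimH_union, hE1, hE2]
    simp
  · rw [Set.mem_union, not_or] at hξ
    obtain ⟨j1, hj1⟩ := h1 ξ hξ.1 τ hτ
    obtain ⟨j2, hj2⟩ := h2 ξ hξ.2 τ hτ
    exact ⟨fun S => ⟨R j1 S, fun κ => hj1 S κ⟩, fun n => ⟨R' j2 n, η j2 n, hη j2 n, fun κ => hj2 n κ⟩⟩

end Pool.Agent.Results.MP_be1fae_nt.TermsNearAPoint
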